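import Pool.Agent.Y16.AF.StmB

/-!
# Dominated convergence on growing tori (S_TAN), project AF of helper16
-/

set_option autoImplicit false

namespace Pool.Agent.Y758.AF

open Filter Topology
open Pool.Agent.Y16.AF

/-! ### weights (compare Y48/AF/GI) -/

/-- the weight -/
noncomputable def wt (n : ℤ) : ℝ := (1 + (n : ℝ) ^ 2) ^ (-(2 / 3 : ℝ))

theorem wt_pos (n : ℤ) : 0 < wt n := by
  unfold wt
  positivity

theorem wt_zero : wt 0 = 1 := by
  unfold wt
  norm_num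

theorem wt_summable : Summable wt := by
  have h1 : Summable fun n : ℤ => |(n : ℝ)| ^ (-(4 / 3 : ℝ)) := Real.summable_abs_int_rpow (by norm_num)
  have h2 : Summable fun n : ℤ => if n = 0 then (1 : ℝ) else 0 := by
    refine summable_of_ne_finset_zero (s := {0}) fun n hn => ?_
    rw [if_neg]
    simpa using hn
  refine Summable.of_nonneg_of_le (fun n => (wt_pos n).le) (fun n => ?_) (h1.add h2)
  by_cases hn : n = 0
  · subst hn
    rw [wt_zero, if_pos rfl]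
    have : 0 ≤ |((0 : ℤ) : ℝ)| ^ (-(4 / 3 : ℝ)) := by positivity
    linarith
  · rw [if_neg hn, add_zero]
    have hn' : (0 : ℝ) < |(n : ℝ)| := abs_pos.2 (by exact_mod_cast hn)
    have h3 : |(n : ℝ)| ^ (-(4 / 3 : ℝ)) = (|(n : ℝ)| ^ 2) ^ (-(2 / 3 : ℝ)) := by
      rw [← Real.rpow_natCast, ← Real.rpow_mul hn'.le]
      norm_num
    rw [h3, sq_abs]
    unfold wt
    refine Real.rpow_le_rpow_of_nonpos ?_ ?_ (by norm_num)
    · have : (n : ℝ) ≠ 0 := by exact_mod_cast hn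
      positivity
    · linarith

theorem prod_wt {a b c : ℤ} (h : 1 ≤ (a : ℝ) ^ 2 + (b : ℝ) ^ 2 + (c : ℝ) ^ 2) :
    1 / ((a : ℝ) ^ 2 + (b : ℝ) ^ 2 + (c : ℝ) ^ 2) ^ 2 ≤ 4 * (wt a * wt b * wt c) := by
  obtain ⟨S, hS⟩ : ∃ S : ℝ, S = (a : ℝ) ^ 2 + (b : ℝ) ^ 2 + (c : ℝ) ^ 2 := ⟨_, rfl⟩
  rw [← hS] at h ⊢
  have ha : 1 + (a : ℝ) ^ 2 ≤ 2 * S := by nlinarith [sq_nonneg (b : ℝ), sq_nonneg (c : ℝ), sq_nonneg (a : ℝ)]
  have hb : 1 + (b : ℝ) ^ 2 ≤ 2 * S := by nlinarith [sq_nonneg (b : ℝ), sq_nonneg (c : ℝ), sq_nonneg (a : ℝ)]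
  have hc : 1 + (c : ℝ) ^ 2 ≤ 2 * S := by nlinarith [sq_nonneg (b : ℝ), sq_nonneg (c : ℝ), sq_nonneg (a : ℝ)]
  have hS0 : 0 < S := by linarith
  have h1 : (1 + (a : ℝ) ^ 2) * (1 + (b : ℝ) ^ 2) * (1 + (c : ℝ) ^ 2) ≤ (2 * S) ^ 3 := by
    have : (2 * S) ^ 3 = 2 * S * (2 * S) * (2 * S) := by ring
    rw [this]
    gcongr
  have h2 : wt a * wt b * wt c = ((1 + (a : ℝ) ^ 2) * (1 + (b : ℝ) ^ 2) * (1 + (c : ℝ) ^ 2)) ^ (-(2 / 3 : ℝ)) := by
    unfold wt
    rw [← Real.mul_rpow (by positivity) (by positivity), ← Real.mul_rpow (by positivity) (by positivity)]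
  have h3 : ((2 * S) ^ 3) ^ (-(2 / 3 : ℝ)) ≤ wt a * wt b * wt c := by
    rw [h2]
    exact Real.rpow_le_rpow_of_nonpos (by positivity) h1 (by norm_num)
  have h4 : ((2 * S) ^ 3) ^ (-(2 / 3 : ℝ)) = 1 / (4 * S ^ 2) := by
    rw [← Real.rpow_natCast, ← Real.rpow_mul (by positivity)]
    have : (((3 : ℕ) : ℝ) * -(2 / 3)) = -((2 : ℕ) : ℝ) := by norm_num
    rw [this, Real.rpow_neg (by positivity), Real.rpow_natCast, one_div]
    congr 1
    ring
  rw [h4] at h3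
  have h5 : 1 / S ^ 2 = 4 * (1 / (4 * S ^ 2)) := by
    field_simp
  rw [h5]
  linarith

/-- the weight on the lattice -/
noncomputable def W3 (n : Fin 3 → ℤ) : ℝ := wt (n 0) * wt (n 1) * wt (n 2)

theorem W3_pos (n : Fin 3 → ℤ) : 0 < W3 n := mul_pos (mul_pos (wt_pos _) (wt_pos _)) (wt_pos _)

theorem W3_summable : Summable W3 := by
  have h1 : Summable fun x : ℤ × ℤ => wt x.1 * wt x.2 :=
    wt_summable.mul_of_nonneg wt_summable (fun n => (wt_pos n).le) (fun n => (wt_pos n).le)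
  have h2 : Summable fun x : (ℤ × ℤ) × ℤ => wt x.1.1 * wt x.1.2 * wt x.2 :=
    h1.mul_of_nonneg wt_summable (fun x => (mul_pos (wt_pos _) (wt_pos _)).le)
      (fun n => (wt_pos n).le)
  have hinj : Function.Injective fun n : Fin 3 → ℤ => ((n 0, n 1), n 2) := by
    intro n m h
    simp only [Prod.mk.injEq] at h
    funext j
    fin_cases j
    · exact h.1.1
    · exact h.1.2
    · exact h.2
  have h3 := h2.comp_injective hinj
  simp only [Function.comp_def] at h3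
  unfold W3
  exact h3

theorem one_le_sq (n : Fin 3 → ℤ) (hn : n ≠ 0) : (1 : ℝ) ≤ (n 0 : ℝ) ^ 2 + (n 1 : ℝ) ^ 2 + (n 2 : ℝ) ^ 2 := by
  have h1 : (1 : ℤ) ≤ n 0 ^ 2 + n 1 ^ 2 + n 2 ^ 2 := by
    by_contra hcon
    push Not at hcon
    apply hn
    have a1 := sq_nonneg (n 0)
    have a2 := sq_nonneg (n 1)
    have a3 := sq_nonneg (n 2)
    have b1 : n 0 = 0 := pow_eq_zero_iff (two_ne_zero) |>.1 (by omega : n 0 ^ 2 = 0)
    have b2 : n 1 = 0 := pow_eq_zero_iff (two_ne_zero) |>.1 (by omega : n 1 ^ 2 = 0)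
    have b3 : n 2 = 0 := pow_eq_zero_iff (two_ne_zero) |>.1 (by omega : n 2 ^ 2 = 0)
    funext j
    fin_cases j
    · exact b1
    · exact b2
    · exact b3
  exact_mod_cast h1

/-! ### the momenta -/

theorem ir_inj {M : ℕ} [NeZero M] : Function.Injective (ir : Sp M → Fin 3 → ℤ) := by
  intro k l h
  funext j
  exact ZMod.injective_valMinAbs (congrFun h j)

theorem ir_ne {M : ℕ} [NeZero M] {k : Sp M} (hk : k ≠ 0) : ir k ≠ 0 := by
  intro h
  apply hk
  funext j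
  exact (ZMod.valMinAbs_eq_zero _).1 (congrFun h j)

theorem ir_bd {M : ℕ} [NeZero M] (k : Sp M) (j : Fin 3) : 2 * |ir k j| ≤ (M : ℤ) := by
  have h := (ZMod.valMinAbs_mem_Ioc (k j))
  rw [Set.mem_Ioc] at h
  unfold ir
  rcases abs_cases (k j).valMinAbs with h1 | h1 <;> omega

theorem ir_surj {M : ℕ} [NeZero M] (n : Fin 3 → ℤ) (h : ∀ j, 2 * |n j| < (M : ℤ)) :
    ∃ k : Sp M, ir k = n := by
  refine ⟨fun j => (n j : ZMod M), ?_⟩
  funext j
  unfold ir
  rw [ZMod.valMinAbs_spec]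
  refine ⟨rfl, ?_⟩
  rw [Set.mem_Ioc]
  have h1 := h j
  rcases abs_cases (n j) with h2 | h2 <;> constructor <;> omega

theorem af_tan : S_TAN := by
  classical
  intro F φ C hφ hF
  let G : ℕ → (Fin 3 → ℤ) → ℝ := fun L n =>
    if n ≠ 0 ∧ ∃ k : Sp (L + 2), ir k = n then F (L + 2) n else 0
  have hsum : ∀ L : ℕ, ∑ k ∈ nz (L + 2), F (L + 2) (ir k) = ∑' n, G L n := by
    intro L
    rw [tsum_eq_sum (s := (nz (L + 2)).image ir)]
    · rw [Finset.sum_image (fun k _ l _ h => ir_inj h)]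
      refine Finset.sum_congr rfl fun k hk => ?_
      have hk' : k ≠ 0 := (Finset.mem_filter.1 hk).2
      show _ = if ir k ≠ 0 ∧ ∃ l : Sp (L + 2), ir l = ir k then F (L + 2) (ir k) else 0
      rw [if_pos ⟨ir_ne hk', k, rfl⟩]
    · intro n hn
      show (if n ≠ 0 ∧ ∃ k : Sp (L + 2), ir k = n then F (L + 2) n else 0) = 0
      rw [if_neg]
      rintro ⟨h0, k, hk⟩
      apply hn
      rw [Finset.mem_image]
      refine ⟨k, Finset.mem_filter.2 ⟨Finset.mem_univ _, ?_⟩, hk⟩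
      rintro rfl
      apply h0
      rw [← hk]
      funext j
      exact ZMod.valMinAbs_zero _
  refine ⟨∑' n, (if n = 0 then 0 else φ n), ?_⟩
  simp only [hsum]
  refine tendsto_tsum_of_dominated_convergence (bound := fun n => |C| * 4 * W3 n)
    (W3_summable.mul_left _) ?_ ?_
  · intro n
    by_cases hn : n = 0
    · rw [if_pos hn]
      have : (fun L => G L n) = fun _ => 0 := by
        funext L
        show (if n ≠ 0 ∧ ∃ k : Sp (L + 2), ir k = n then F (L + 2) n else 0) = 0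
        rw [if_neg]
        exact fun h => h.1 hn
      rw [this]
      exact tendsto_const_nhds
    · rw [if_neg hn]
      have h1 : Tendsto (fun L => F (L + 2) n) atTop (𝓝 (φ n)) :=
        (hφ n hn).comp (tendsto_add_atTop_nat 2)
      refine h1.congr' ?_
      filter_upwards [eventually_ge_atTop (2 * (∑ j, |n j|)).toNat] with L hL
      show _ = if n ≠ 0 ∧ ∃ k : Sp (L + 2), ir k = n then F (L + 2) n else 0
      rw [if_pos]
      refine ⟨hn, ir_surj n fun j => ?_⟩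
      have h2 : |n j| ≤ ∑ j, |n j| :=
        Finset.single_le_sum (f := fun j => |n j|) (fun _ _ => abs_nonneg _) (Finset.mem_univ j)
      push_cast
      omega
  · refine Eventually.of_forall fun L n => ?_
    rw [Real.norm_eq_abs]
    show |if n ≠ 0 ∧ ∃ k : Sp (L + 2), ir k = n then F (L + 2) n else 0| ≤ _
    have hC : 0 ≤ |C| * 4 * W3 n := mul_nonneg (by positivity) (W3_pos n).le
    split_ifs with h
    · obtain ⟨h0, k, hk⟩ := h
      have h1 := hF (L + 2) n h0 fun j => by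
        rw [← hk]
        exact ir_bd k j
      have h2 := one_le_sq n h0
      rw [Fin.sum_univ_three] at h1
      have h3 := prod_wt h2
      calc |F (L + 2) n| ≤ C / ((n 0 : ℝ) ^ 2 + (n 1 : ℝ) ^ 2 + (n 2 : ℝ) ^ 2) ^ 2 := h1
        _ ≤ |C| / ((n 0 : ℝ) ^ 2 + (n 1 : ℝ) ^ 2 + (n 2 : ℝ) ^ 2) ^ 2 :=
            div_le_div_of_nonneg_right (le_abs_self C) (by positivity)
        _ = |C| * (1 / ((n 0 : ℝ) ^ 2 + (n 1 : ℝ) ^ 2 + (n 2 : ℝ) ^ 2) ^ 2) := by
            rw [mul_one_div]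
        _ ≤ |C| * (4 * (wt (n 0) * wt (n 1) * wt (n 2))) :=
            mul_le_mul_of_nonneg_left h3 (abs_nonneg _)
        _ = |C| * 4 * W3 n := by
            unfold W3
            ring
    · rw [abs_zero]
      exact hC

end Pool.Agent.Y758.AF
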